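import Mathlib
import Pool.Agent.H6.Toric.Refl
import Pool.Agent.H86.Refl.Data

/-!
# One reflection of order two in a projective space
-/

set_option autoImplicit false

open Polynomial

namespace Pool.Agent.H86.TRefl

open Pool.Agent.H6.Toric

lemma exists_equiv_last {ι : Type} [Fintype ι] [DecidableEq ι] (w : ι) {N : ℕ}
    (hN : Fintype.card ι = N + 1) : ∃ σ : ι ≃ Fin (N + 1), σ w = Fin.last N := by
  set σ₀ : ι ≃ Fin (N + 1) := Fintype.equivFinOfCardEq hN
  exact ⟨σ₀.trans (Equiv.swap (σ₀ w) (Fin.last N)), by simp⟩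

/-- The curve through a point off the mirror, in the projective space. -/
theorem exists_data_conic {ι : Type} [Fintype ι] [DecidableEq ι] {c : ℕ} (w : ι)
    (e : Fin c → ℕ) (G : Fin c → MvPolynomial ι ℂ) (hdvd : ∀ j, ∀ m ∈ (G j).support, 2 ∣ m w)
    (hG : ∀ j, (G j).IsHomogeneous (e j)) (hsum : ∑ j, e j ≤ Fintype.card ι)
    (hc : c + 3 ≤ Fintype.card ι) (x : ι → ℂ) (hxw : x w ≠ 0) (hex : ∃ i, i ≠ w ∧ x i ≠ 0)
    (hx : ∀ j, MvPolynomial.eval x (G j) = 0) :
    ∃ (P : ι → ℂ[X]) (Q g : ℂ[X]),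
      CurveData 2 1 w (weightedGroup fun _ => 1) (fun _ => 2) G x P Q g 0 (x w) := by
  classical
  obtain ⟨N, hN⟩ : ∃ N, Fintype.card ι = N + 1 := ⟨Fintype.card ι - 1, by omega⟩
  obtain ⟨σ, hσ⟩ := exists_equiv_last w hN
  have hσi : ∀ i, i ≠ w → σ i ≠ Fin.last N := by
    intro i hi h
    exact hi (σ.injective (h.trans hσ.symm))
  set G' : Fin c → MvPolynomial (Fin (N + 1)) ℂ := fun j => MvPolynomial.rename σ (G j) with hG'
  have hG'h : ∀ j, (G' j).IsHomogeneous (e j) := fun j => (hG j).rename_isHomogeneous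
  have hG'd : ∀ j, ∀ d ∈ (G' j).support, 2 ∣ d (Fin.last N) := by
    intro j d hd
    rw [hG', MvPolynomial.support_rename_of_injective σ.injective, Finset.mem_image] at hd
    obtain ⟨m, hm, rfl⟩ := hd
    rw [← hσ, Finsupp.mapDomain_apply σ.injective]
    exact hdvd j m hm
  have hev : ∀ (j : Fin c) (v : Fin (N + 1) → ℂ), MvPolynomial.eval v (G' j) =
      MvPolynomial.eval (fun i => v (σ i)) (G j) := by
    intro j v
    rw [hG', MvPolynomial.eval_rename]
    rfl
  have hx' : ∀ j, MvPolynomial.eval (fun k => x (σ.symm k)) (G' j) = 0 := by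
    intro j
    rw [hev]
    simpa using hx j
  obtain ⟨i₀, hi₀, hxi₀⟩ := hex
  obtain ⟨ℓ, hℓ⟩ : ∃ ℓ : Fin N, σ i₀ = ℓ.castSucc :=
    ⟨(σ i₀).castPred (hσi i₀ hi₀), (Fin.castSucc_castPred _ _).symm⟩
  have hℓ' : (fun k => x (σ.symm k)) ℓ.castSucc ≠ 0 := by
    show x (σ.symm ℓ.castSucc) ≠ 0
    rw [← hℓ, σ.symm_apply_apply]
    exact hxi₀
  obtain ⟨κ, p, xs, g, hp, D⟩ := Pool.Agent.H86.Refl.exists_curveData (r := 2) (Or.inl dvd_rfl)
    hG'h hG'd (by omega) (by omega) hx' hℓ'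
  obtain ⟨rfl, rfl⟩ : p = 1 ∧ κ = 2 := by
    have h1 := D.hκ
    have h2 := Nat.le_of_dvd (by norm_num) hp
    have h3 : p ≠ 0 := by
      rintro rfl
      simp at h1
    have h4 : p = 1 := by omega
    subst h4
    exact ⟨rfl, by omega⟩
  have hxw' : x (σ.symm (Fin.last N)) = x w := by
    rw [← hσ, σ.symm_apply_apply]
  set P : ι → ℂ[X] := fun i => (Fin.snoc xs 0 : Fin (N + 1) → ℂ[X]) (σ i) with hPdef
  have hPi : ∀ i, i ≠ w → ∃ k : Fin N, σ i = k.castSucc ∧ P i = xs k := by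
    intro i hi
    refine ⟨(σ i).castPred (hσi i hi), (Fin.castSucc_castPred _ _).symm, ?_⟩
    have h : P i = (Fin.snoc xs 0 : Fin (N + 1) → ℂ[X]) ((σ i).castPred (hσi i hi)).castSucc := by
      rw [Fin.castSucc_castPred]
    rw [h, Fin.snoc_castSucc]
  have hcoords : ∀ t v : ℂ, coords w P 1 t v =
      fun i => (Fin.snoc (fun k => (xs k).eval t) v : Fin (N + 1) → ℂ) (σ i) := by
    intro t v
    funext i
    by_cases hi : i = w
    · subst hi
      simp only [coords, if_true, eval_one, one_mul, hσ, Fin.snoc_last]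
    · obtain ⟨k, hk, hPk⟩ := hPi i hi
      simp only [coords, if_neg hi, hPk, hk, Fin.snoc_castSucc]
  refine ⟨P, 1, g, ?_, ?_, le_rfl, D.degg, ?_, hxw, ?_, ?_, ?_⟩
  · intro i hi
    obtain ⟨k, -, hPk⟩ := hPi i hi
    rw [hPk]
    exact D.degx k
  · simp
  · funext i
    by_cases hi : i = w
    · subst hi
      simp [coords]
    · obtain ⟨k, hk, hPk⟩ := hPi i hi
      simp only [coords, if_neg hi, hPk]
      rw [D.x0 k]
      show x (σ.symm k.castSucc) = x i
      rw [← hk, σ.symm_apply_apply]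
  · rw [D.g0, hxw']
  · intro j t v hv
    rw [hcoords, ← hev]
    exact D.zero j t v hv
  · by_contra hinf
    apply D.nonconst
    have key : ∀ {A B : ℂ[X]}, (∀ t ∈ {t : ℂ | ∃ v, v ^ (1 + 1) = g.eval t ∧
        ∃ a ∈ weightedGroup (fun _ : ι => 1), ∀ i, coords w P 1 t v i = (a i : ℂ) * x i},
        A.eval t = B.eval t) → A = B := by
      intro A B h
      exact Polynomial.eq_of_infinite_eval_eq A B (Set.Infinite.mono (fun t ht => h t ht) hinf)
    have hPi₀ : ∀ i, i ≠ w → P i * C (x i₀) = P i₀ * C (x i) := by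
      intro i hi
      apply key
      rintro t ⟨v, -, a, ⟨u, rfl⟩, ha⟩
      have h1 := ha i
      have h2 := ha i₀
      simp only [coords, if_neg hi, if_neg hi₀, pow_one] at h1 h2
      simp only [eval_mul, eval_C]
      rw [h1, h2]
      ring
    have hgg : g * C (x i₀ ^ 2) = P i₀ ^ 2 * C (x w ^ 2) := by
      apply key
      rintro t ⟨v, hv, a, ⟨u, rfl⟩, ha⟩
      have h1 := ha w
      have h2 := ha i₀
      simp only [coords, if_true, if_neg hi₀, pow_one, eval_one, one_mul] at h1 h2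
      simp only [eval_mul, eval_C, eval_pow]
      rw [h2, ← hv, h1]
      ring
    refine ⟨C (x i₀)⁻¹ * P i₀, ?_, ?_⟩
    · intro k
      have hk : σ.symm k.castSucc ≠ w := by
        intro h
        have : k.castSucc = Fin.last N := by
          rw [← hσ, ← h, σ.apply_symm_apply]
        exact (Fin.castSucc_lt_last k).ne this
      have h1 := hPi₀ _ hk
      obtain ⟨k', hk', hPk⟩ := hPi _ hk
      rw [σ.apply_symm_apply] at hk'
      have hkk : k = k' := Fin.castSucc_injective _ hk'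
      subst hkk
      rw [hPk] at h1
      have h2 : (C (x i₀) : ℂ[X]) * C (x i₀)⁻¹ = 1 := by
        rw [← C_mul, mul_inv_cancel₀ hxi₀, C_1]
      calc xs k = (xs k * C (x i₀)) * C (x i₀)⁻¹ := by rw [mul_assoc, h2, mul_one]
        _ = (P i₀ * C (x (σ.symm k.castSucc))) * C (x i₀)⁻¹ := by rw [h1]
        _ = _ := by ring
    · rw [hxw']
      have h2 : (C (x i₀ ^ 2) : ℂ[X]) * (C (x i₀)⁻¹) ^ 2 = 1 := by
        rw [← C_pow, ← C_mul, inv_pow, mul_inv_cancel₀ (pow_ne_zero 2 hxi₀), C_1]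
      calc g = (g * C (x i₀ ^ 2)) * (C (x i₀)⁻¹) ^ 2 := by rw [mul_assoc, h2, mul_one]
        _ = (P i₀ ^ 2 * C (x w ^ 2)) * (C (x i₀)⁻¹) ^ 2 := by rw [hgg]
        _ = _ := by ring

end Pool.Agent.H86.TRefl
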