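import Mathlib
import Pool.Agent.H86.TRefl.PN

/-!
# Calabi-Yau and Fano complete intersections with reflections: the condition
-/

set_option autoImplicit false

open Filter Topology Polynomial

namespace Pool.Agent.H86.TRefl

open Pool.Agent.H6.Toric

/-- The reflection condition at the point with homogeneous coordinates `x`: there is a curve class
`b` (a one-parameter subgroup of `T`, `b i` being the intersection number with `{x_i = 0}`) with
`K_X · b = ∑ e_j - ∑ b_i ≤ 0`, where `e_j = {G_j = 0} · b`, and one of the following holds.  In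
the first four cases the class `b` is indecomposable at `x` in the quotient by the reflections,
whose mirrors do not contain `x`:

* the `G j` depend on some `x_w` only through `x_w ^ 2`, and `b w ≥ 2`;
* the `G j` depend on some `x_w` only through `x_w ^ 3`, and `b w ≥ 1`;
* the `G j` depend on some `x_w` only through `x_w ^ 4`, and `b w ≥ 1`;
* the `G j` depend on `x_v`, `x_w`, `v ≠ w`, only through `x_v ^ 2`, `x_w ^ 2`, and
  `b v, b w ≥ 1`;
* the toric variety is the projective space of dimension `≥ c + 2`, `b` is the class of a line,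
  the `G j` depend on some `x_w` only through `x_w ^ 2`, `x_w ≠ 0` and another coordinate of `x`
  is nonzero. -/
def ReflCondition {ι : Type} [Fintype ι] [DecidableEq ι] (T : Subgroup (ι → ℂˣ)) {c : ℕ}
    (G : Fin c → MvPolynomial ι ℂ) (x : ι → ℂ) : Prop :=
  ∃ (b : ι → ℕ) (e : Fin c → ℕ), (∀ u : ℂˣ, (fun i => u ^ b i) ∈ T) ∧
    (∀ j, MvPolynomial.IsWeightedHomogeneous b (G j) (e j)) ∧ ∑ j, e j ≤ ∑ i, b i ∧
    ((∃ w, x w ≠ 0 ∧ 2 ≤ b w ∧ (∀ j, ∀ m ∈ (G j).support, 2 ∣ m w) ∧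
        IndecomposableR T (oneRefl w 2) b x) ∨
      (∃ w, x w ≠ 0 ∧ 1 ≤ b w ∧ (∀ j, ∀ m ∈ (G j).support, 3 ∣ m w) ∧
        IndecomposableR T (oneRefl w 3) b x) ∨
      (∃ w, x w ≠ 0 ∧ 1 ≤ b w ∧ (∀ j, ∀ m ∈ (G j).support, 4 ∣ m w) ∧
        IndecomposableR T (oneRefl w 4) b x) ∨
      (∃ v w, v ≠ w ∧ x v ≠ 0 ∧ x w ≠ 0 ∧ 1 ≤ b v ∧ 1 ≤ b w ∧
        (∀ j, ∀ m ∈ (G j).support, 2 ∣ m v ∧ 2 ∣ m w) ∧
        IndecomposableR T (twoRefl v w) b x) ∨
      (∃ w, T = weightedGroup (fun _ => 1) ∧ b = (fun _ => 1) ∧ c + 3 ≤ Fintype.card ι ∧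
        x w ≠ 0 ∧ (∃ i, i ≠ w ∧ x i ≠ 0) ∧ ∀ j, ∀ m ∈ (G j).support, 2 ∣ m w))

/-- The points of `X` with the reflection condition. -/
def reflPart {ι : Type} [Fintype ι] [DecidableEq ι] (T : Subgroup (ι → ℂˣ)) (U : Set (Set ι))
    {c : ℕ} (G : Fin c → MvPolynomial ι ℂ) : Set (Orbits T) :=
  {P | ∃ x, P = pt T x ∧ supp x ∈ U ∧ (∀ j, MvPolynomial.eval x (G j) = 0) ∧
    ReflCondition T G x}

lemma isHomogeneous_of_weight_one {ι : Type} {Q : MvPolynomial ι ℂ} {e : ℕ}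
    (h : MvPolynomial.IsWeightedHomogeneous (fun _ => 1) Q e) : Q.IsHomogeneous e := h

/-- There is a curve of geometric genus at most one. -/
theorem exists_reflData {ι : Type} [Fintype ι] [DecidableEq ι] {T : Subgroup (ι → ℂˣ)}
    {c : ℕ} {G : Fin c → MvPolynomial ι ℂ} {x : ι → ℂ} (hx : ∀ j, MvPolynomial.eval x (G j) = 0)
    (h : ReflCondition T G x) :
    ∃ (κ p : ℕ) (w : ι) (B : ι → ℕ) (P : ι → ℂ[X]) (Q g : ℂ[X]) (t₀ v₀ : ℂ), κ * p = 2 ∧
      (∀ u : ℂˣ, (fun i => u ^ B i) ∈ T) ∧ CurveData κ p w T B G x P Q g t₀ v₀ := by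
  obtain ⟨b, e, hbT, hG, hdeg, h⟩ := h
  have old : Pool.Agent.H6.Toric.ReflectionCondition T G x →
      ∃ (κ p : ℕ) (w : ι) (B : ι → ℕ) (P : ι → ℂ[X]) (Q g : ℂ[X]) (t₀ v₀ : ℂ), κ * p = 2 ∧
      (∀ u : ℂˣ, (fun i => u ^ B i) ∈ T) ∧ CurveData κ p w T B G x P Q g t₀ v₀ :=
    fun h => Pool.Agent.H6.Toric.exists_curveData hx h
  rcases h with h | h | h | h | ⟨w, rfl, rfl, hc, hxw, hex, hdvd⟩
  · exact old ⟨b, e, hbT, hG, hdeg, Or.inl h⟩
  · exact old ⟨b, e, hbT, hG, hdeg, Or.inr (Or.inl h)⟩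
  · exact old ⟨b, e, hbT, hG, hdeg, Or.inr (Or.inr (Or.inl h))⟩
  · exact old ⟨b, e, hbT, hG, hdeg, Or.inr (Or.inr (Or.inr h))⟩
  · obtain ⟨P, Q, g, hD⟩ := exists_data_conic w e G hdvd
      (fun j => isHomogeneous_of_weight_one (hG j)) (by simpa using hdeg) hc x hxw hex hx
    refine ⟨2, 1, w, _, P, Q, g, 0, x w, rfl, ?_, hD⟩
    intro u
    exact ⟨u ^ 2, by funext i; simp⟩

/-- Weighted projective spaces, one reflection. -/
lemma condition_weighted {ι : Type} [Fintype ι] [DecidableEq ι] {c : ℕ}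
    {G : Fin c → MvPolynomial ι ℂ} (a : ι → ℕ) (e : Fin c → ℕ) (w : ι) (r : ℕ)
    (hr : 2 ∣ r ∧ 2 ≤ a w ∨ (3 ∣ r ∨ 4 ∣ r) ∧ 1 ≤ a w)
    (hdvd : ∀ j, ∀ m ∈ (G j).support, r ∣ m w)
    (hGa : ∀ j, MvPolynomial.IsWeightedHomogeneous a (G j) (e j)) (hdeg : ∑ j, e j ≤ ∑ i, a i)
    (x : ι → ℂ) (hxw : x w ≠ 0)
    (hgcd : ∀ k : ℕ, (∀ i, x i ≠ 0 → k ∣ (if i = w then r else 1) * a i) → k = 1) :
    ReflCondition (weightedGroup a) G x := by
  have hind : ∀ r', r' ∣ r → IndecomposableR (weightedGroup a) (oneRefl w r') a x := by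
    intro r' hr'
    apply indecomposableR_weighted
    intro k hk
    apply hgcd
    intro i hi
    refine (hk i hi).trans (Nat.mul_dvd_mul ?_ dvd_rfl)
    unfold oneRefl
    split_ifs
    · exact hr'
    · exact dvd_rfl
  refine ⟨a, e, fun u => ⟨u, rfl⟩, hGa, hdeg, ?_⟩
  rcases hr with ⟨h2, haw⟩ | ⟨h3 | h4, haw⟩
  · exact Or.inl ⟨w, hxw, haw, fun j m hm => h2.trans (hdvd j m hm), hind 2 h2⟩
  · exact Or.inr (Or.inl ⟨w, hxw, haw, fun j m hm => h3.trans (hdvd j m hm), hind 3 h3⟩)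
  · exact Or.inr (Or.inr (Or.inl ⟨w, hxw, haw, fun j m hm => h4.trans (hdvd j m hm), hind 4 h4⟩))

/-- Projective spaces, one reflection. -/
lemma condition_projective {ι : Type} [Fintype ι] [DecidableEq ι] {c : ℕ}
    {G : Fin c → MvPolynomial ι ℂ} (e : Fin c → ℕ) (w : ι) (r : ℕ)
    (hr : 2 ∣ r ∧ c + 3 ≤ Fintype.card ι ∨ 3 ∣ r)
    (hdvd : ∀ j, ∀ m ∈ (G j).support, r ∣ m w)
    (hGa : ∀ j, (G j).IsHomogeneous (e j)) (hdeg : ∑ j, e j ≤ Fintype.card ι)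
    (x : ι → ℂ) (hxw : x w ≠ 0) (hex : ∃ i, i ≠ w ∧ x i ≠ 0) :
    ReflCondition (weightedGroup fun _ => 1) G x := by
  rcases hr with ⟨h2, hc⟩ | h3
  · refine ⟨fun _ => 1, e, fun u => ⟨u, rfl⟩, hGa, by simpa using hdeg, ?_⟩
    exact Or.inr (Or.inr (Or.inr (Or.inr
      ⟨w, rfl, rfl, hc, hxw, hex, fun j m hm => h2.trans (hdvd j m hm)⟩)))
  · refine condition_weighted (fun _ => 1) e w r (Or.inr ⟨Or.inl h3, le_rfl⟩) hdvd hGa
      (by simpa using hdeg) x hxw ?_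
    intro k hk
    obtain ⟨i, hi, hxi⟩ := hex
    have := hk i hxi
    rw [if_neg hi] at this
    exact Nat.dvd_one.mp this

end Pool.Agent.H86.TRefl
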